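import Mathlib
import Pool.Agent.Q68.RK.Main

open MeasureTheory ProbabilityTheory
open Q47Khin

namespace Pool.Agent.Results.MP_47485c_an.RandomProducts

/-- Let `ω 0, ω 1, …` be independent with `P(ω n = 2) = p`, `P(ω n = 3) = 1 - p`, `0 < p < 1`.
Then almost surely the sequence of partial products is not an `L^q`-Khintchin sequence for any
exponent `q` (including `q = 1` and `q = ∞`). -/
theorem result {Ω : Type*} [MeasurableSpace Ω] (P : Measure Ω) [IsProbabilityMeasure P]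
    (p : ℝ) (hp0 : 0 < p) (hp1 : p < 1) (ω : ℕ → Ω → ℕ) (hm : ∀ n, Measurable (ω n))
    (hi : iIndepFun ω P) (h2 : ∀ n, P {z | ω n z = 2} = ENNReal.ofReal p)
    (h3 : ∀ n, P {z | ω n z = 3} = ENNReal.ofReal (1 - p)) :
    ∀ᵐ z ∂P, ∀ q : ENNReal, ¬ IsLpKhintchin q (prodSeq fun n => ω n z) :=
  Q68.RK.main P p hp0 hp1 ω hm hi h2 h3

end Pool.Agent.Results.MP_47485c_an.RandomProducts
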